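import Pool.Agent.MP_e8c887_nt.H44.Orbit

/-!
A rational map of the projective line over K = k(t), k any field of positive characteristic,
and a K-rational point whose canonical height is irrational.
-/

namespace Pool.Agent.Results.MP_e8c887_nt.IrrationalCharP

open Polynomial Pool.Agent.MP_e8c887_nt.H44

/-- Degree of a rational function written in lowest terms. -/
noncomputable def ratDegree {K : Type*} [Field K] (f : RatFunc K) : ℕ :=
  max f.num.natDegree f.denom.natDegree

/-- The Weil height on the projective line over k(t): zero at infinity, and the maximum of the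
degrees of numerator and denominator (in lowest terms) at a finite point. -/
noncomputable def weilHeight {k : Type*} [Field k] (P : OnePoint (RatFunc k)) : ℕ :=
  P.elim 0 ratDegree

open Classical in
/-- The self-map of the projective line over K given by a rational function in K(z). -/
noncomputable def act {K : Type*} [Field K] (f : RatFunc K) (P : OnePoint K) : OnePoint K :=
  P.elim
    (if f.denom.natDegree < f.num.natDegree then OnePoint.infty
      else ((f.num.coeff f.denom.natDegree / f.denom.leadingCoeff : K) : OnePoint K))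
    (fun z => if f.denom.eval z = 0 then OnePoint.infty
      else ((f.num.eval z / f.denom.eval z : K) : OnePoint K))

lemma num_denom_of_coprime {K : Type*} [Field K] {p q : K[X]} (h : IsCoprime p q) (hq : q ≠ 0) :
    ∃ c : K, c ≠ 0 ∧ (algebraMap _ (RatFunc K) p / algebraMap _ _ q).num = C c * p ∧
      (algebraMap _ (RatFunc K) p / algebraMap _ _ q).denom = C c * q := by
  classical
  have hg : gcd p q = 1 := by
    rw [← normalize_gcd, normalize_eq_one]
    exact (gcd_isUnit_iff p q).2 h
  refine ⟨q.leadingCoeff⁻¹, inv_ne_zero (leadingCoeff_ne_zero.2 hq), ?_, ?_⟩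
  · rw [RatFunc.num_div, hg]; simp
  · rw [RatFunc.denom_div _ hq, hg]; simp

lemma ratDegree_div {K : Type*} [Field K] {p q : K[X]} (h : IsCoprime p q) (hq : q ≠ 0) :
    ratDegree (algebraMap _ (RatFunc K) p / algebraMap _ _ q) = max p.natDegree q.natDegree := by
  obtain ⟨c, hc, h1, h2⟩ := num_denom_of_coprime h hq
  rw [ratDegree, h1, h2, natDegree_C_mul hc, natDegree_C_mul hc]

lemma act_div {K : Type*} [Field K] {p q : K[X]} (h : IsCoprime p q) (hq : q ≠ 0) {z : K}
    (hz : q.eval z ≠ 0) :
    act (algebraMap _ (RatFunc K) p / algebraMap _ _ q) (z : OnePoint K) =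
      ((p.eval z / q.eval z : K) : OnePoint K) := by
  obtain ⟨c, hc, h1, h2⟩ := num_denom_of_coprime h hq
  rw [act, OnePoint.elim_some, h1, h2, if_neg (by simp [hc, hz])]
  simp only [eval_mul, eval_C]
  rw [mul_div_mul_left _ _ hc]

lemma natDegree_M {K : Type*} [Field K] (r : ℕ) :
    (Mh r (X : K[X]) 1).natDegree = 4 * r + 4 := by
  unfold Mh
  have h1 : ((X ^ (r + 1) - 1 ^ (r + 1) : K[X]) ^ 4).natDegree = 4 * r + 4 := by
    rw [natDegree_pow, one_pow, ← C_1, natDegree_X_pow_sub_C]; ring
  rw [natDegree_add_eq_right_of_natDegree_lt, h1]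
  rw [h1]
  refine lt_of_le_of_lt (natDegree_add_le _ _) (max_lt ?_ ?_)
  · simp
  · simp

theorem result (k : Type*) [Field k] (p : ℕ) (hp : p.Prime) [CharP k p] :
    ∃ f : RatFunc (RatFunc k), 2 ≤ ratDegree f ∧
      ∃ (P : OnePoint (RatFunc k)) (L : ℝ), Irrational L ∧
        Filter.Tendsto
          (fun n : ℕ => (weilHeight ((act f)^[n] P) : ℝ) / (ratDegree f : ℝ) ^ n)
          Filter.atTop (nhds L) := by
  obtain ⟨r, rfl⟩ : ∃ r, p = r + 2 := ⟨p - 2, by have := hp.two_le; omega⟩
  have : Fact (r + 2).Prime := ⟨hp⟩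
  obtain ⟨x, y, e, h, hap⟩ := exists_orbit_aperiodic r
  obtain ⟨L, hL, hlim⟩ := irrational_limit (4 * r + 5) (by omega) (fun n => (y n).natDegree) e
    (fun n => (h n).1) (fun n => (h n).2.2.2.2) hap
  let φ : ZMod (r + 2) →+* k := ZMod.castHom (dvd_refl _) k
  let ψ : (ZMod (r + 2))[X] →+* RatFunc k := (algebraMap k[X] (RatFunc k)).comp (mapRingHom φ)
  have hψ : ∀ a, ψ a = algebraMap k[X] (RatFunc k) (a.map φ) := fun a => rfl
  have hψX : ψ X = RatFunc.X := by simp [hψ]
  have hy0 : ∀ n, y n ≠ 0 := fun n h0 => by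
    have := (h n).2.1.2.1
    simp [h0] at this
  have hψy : ∀ n, ψ (y n) ≠ 0 := fun n => by
    rw [hψ]
    exact RatFunc.algebraMap_ne_zero (map_ne_zero (hy0 n))
  set N : (RatFunc k)[X] := Nh r X 1 with hN
  set D : (RatFunc k)[X] := Dh r (C RatFunc.X) X 1 with hD
  have hM := natDegree_M (K := RatFunc k) r
  have hM0 : Mh r (X : (RatFunc k)[X]) 1 ≠ 0 := by
    intro h0
    rw [h0, natDegree_zero] at hM
    omega
  have hNdeg : N.natDegree = 4 * r + 5 := by
    rw [hN, Nh, natDegree_X_mul hM0, hM]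
  have hDdeg : D.natDegree = 4 * r + 4 := by
    have h1 : (C RatFunc.X * Mh r (X : (RatFunc k)[X]) 1).natDegree = 4 * r + 4 := by
      rw [natDegree_C_mul RatFunc.X_ne_zero, hM]
    rw [hD, Dh, one_mul, natDegree_sub_eq_right_of_natDegree_lt, h1]
    rw [h1]; simp
  have hD0 : D ≠ 0 := by
    intro h0
    rw [h0, natDegree_zero] at hDdeg
    omega
  have hND : IsCoprime N D := by
    apply isCoprime_of_prime_dvd
    · exact fun h => hD0 h.2
    · intro z hz hzN
      refine not_dvd_both r isCoprime_one_right hz (fun hzt => hz.not_isUnit ?_) hzN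
      exact isUnit_of_dvd_unit hzt (isUnit_C.2 (RatFunc.X_ne_zero).isUnit)
  have hdeg : ratDegree (algebraMap _ (RatFunc (RatFunc k)) N / algebraMap _ _ D) = 4 * r + 5 := by
    rw [ratDegree_div hND hD0, hNdeg, hDdeg]; omega
  have hstep : ∀ n, act (algebraMap _ (RatFunc (RatFunc k)) N / algebraMap _ _ D)
      ((ψ (x n) / ψ (y n) : RatFunc k) : OnePoint (RatFunc k)) =
      ((ψ (x (n + 1)) / ψ (y (n + 1)) : RatFunc k) : OnePoint (RatFunc k)) := by
    intro n
    have e1 := congrArg ψ (h n).2.2.1
    have e2 := congrArg ψ (h n).2.2.2.1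
    simp only [Nh, Dh, map_mul, map_pow, map_sub, map_Mh, hψX] at e1 e2
    have hb := hψy n
    have hb' := hψy (n + 1)
    generalize ψ (y n) = b at *
    generalize ψ (y (n + 1)) = b' at *
    generalize ψ (x (n + 1)) = a' at *
    obtain ⟨z, hz⟩ : ∃ z, ψ (x n) = z * b := ⟨ψ (x n) / b, by field_simp⟩
    rw [hz, Mh_homog] at e1 e2
    rw [hz, mul_div_cancel_right₀ _ hb]
    have evM : eval z (Mh r (X : (RatFunc k)[X]) 1) = Mh r z 1 := by
      simpa using map_Mh (evalRingHom z) r X 1
    have evN : N.eval z = z * Mh r z 1 := by simp [hN, Nh, evM]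
    have evD : D.eval z = z ^ 2 - RatFunc.X * Mh r z 1 := by simp [hD, Dh, evM]
    have ht : (RatFunc.X : RatFunc k) ^ e n ≠ 0 := pow_ne_zero _ RatFunc.X_ne_zero
    have f2 : RatFunc.X ^ e n * b' = b ^ (4 * r + 5) * D.eval z := by
      rw [evD]; linear_combination e2
    have f1 : RatFunc.X ^ e n * a' = b ^ (4 * r + 5) * N.eval z := by
      rw [evN]; linear_combination e1
    have hDz : D.eval z ≠ 0 := by
      intro h0
      rw [h0, mul_zero] at f2
      exact mul_ne_zero ht hb' f2
    rw [act_div hND hD0 hDz]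
    congr 1
    rw [← mul_div_mul_left a' b' ht, f1, f2, mul_div_mul_left _ _ (pow_ne_zero _ hb)]
  refine ⟨algebraMap _ _ N / algebraMap _ _ D, by rw [hdeg]; omega,
    ((ψ (x 0) / ψ (y 0) : RatFunc k) : OnePoint (RatFunc k)), L, hL, ?_⟩
  have horb : ∀ n, (act (algebraMap _ (RatFunc (RatFunc k)) N / algebraMap _ _ D))^[n]
      ((ψ (x 0) / ψ (y 0) : RatFunc k) : OnePoint (RatFunc k)) =
      ((ψ (x n) / ψ (y n) : RatFunc k) : OnePoint (RatFunc k)) := by
    intro n
    induction n with
    | zero => rfl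
    | succ n ih => rw [Function.iterate_succ_apply', ih, hstep]
  have hht : ∀ n, weilHeight ((ψ (x n) / ψ (y n) : RatFunc k) : OnePoint (RatFunc k)) =
      (y n).natDegree := by
    intro n
    rw [weilHeight, OnePoint.elim_some, hψ, hψ,
      ratDegree_div ((isCoprime_map φ).2 (h n).2.1.1) (map_ne_zero (hy0 n)),
      natDegree_map, natDegree_map]
    exact max_eq_right (h n).2.1.2.2.le
  simp only [horb, hht, hdeg]
  exact hlim

end Pool.Agent.Results.MP_e8c887_nt.IrrationalCharP
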